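import Pool.Agent.helper58.FI4E.Spec

/-!
Project fi4e (MP_baa4d7_al), block E6, row DSE (spec of helper58). Seat helper24.
-/

set_option autoImplicit false

namespace Pool.Agent.FI4E

open Pool.Agent.helper58.DC Pool.Agent.DI Pool.Agent.GR Pool.Agent.OB Pool.Agent.DR Pool.Agent.FI Pool.Agent.FI3 Pool.Agent.FI4 Pool.Agent.FI4I

theorem DSE (hDSZ : DSZ_stmt) (hDHZ : DHZ_stmt) : DSE_stmt := by
  intro p M hS G E A _ _ _ _ _ X hop D x θ χ hRt hHyp hD a d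
  have hp : Fact p.Prime := ⟨hS.pr⟩
  obtain ⟨n, hn⟩ := (IsPGroup.iff_card (p := p) (G := D)).1 hRt.dfa.pgrp
  have h0 : ∀ d' : ℤ, d' ≠ (n : ℤ) → ∀ U : Subgroup A, altSum X p M χ d' U = 0 :=
    fun d' hd' U => hDHZ p M hS G E A X D x θ χ hRt hHyp n hn d' hd' U
  have hz : ∀ d' : ℤ, d' ≠ (n : ℤ) → ∑ᶠ U : {U : Subgroup A // a ∈ U}, altSum X p M χ d' U.1 = 0 := by
    intro d' hd'
    rw [finsum_congr (fun U : {U : Subgroup A // a ∈ U} => h0 d' hd' U.1)]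
    exact finsum_zero
  by_cases hd : d = (n : ℤ)
  · have h1 := hDSZ p M hS G E A X hop D x θ χ hRt hHyp hD a
    unfold dadeSum at h1
    rw [finsum_eq_single _ (n : ℤ) hz] at h1
    rw [hd]
    exact h1
  · exact hz d hd

end Pool.Agent.FI4E
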